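import Pool.Agent.helper90.LX.ResS

/-!
Local uniformization with monomialization, in every dimension and over every field of characteristic
`p`, for the valuations of rank one whose rational rank is one less than the transcendence degree
over (a field of representatives of) the residue field.

Design: helper90 (value groups that are not finitely generated; the union), helper75 (finitely
generated value groups, over an arbitrary field). Modules by the helpers of the projects LUX, LUV and
LUW.
-/

namespace Pool.Agent.Results.MP_53121e_ag.RankOneCorankOne

universe u

variable {k K : Type u} [Field k] [Field K] [Algebra k K]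

/-- The center of the valuation ring `V` on `Spec A`, for a `k`-subalgebra `A` of `K` contained in
`V`: the prime ideal of those elements of `A` that lie in the maximal ideal of `V`. -/
def center (V : ValuationSubring K) (A : Subalgebra k K) (h : ∀ a ∈ A, a ∈ V) : Ideal A :=
  (IsLocalRing.maximalIdeal V).comap
    ((A.val : A →+* K).codRestrict V.toSubring fun a => h a a.2)

instance (V : ValuationSubring K) (A : Subalgebra k K) (h : ∀ a ∈ A, a ∈ V) :
    (center V A h).IsPrime := Ideal.IsPrime.comap _

/-- Let `k` be a field of characteristic `p > 0`, `K/k` a finitely generated field extension and `V`
the valuation ring of a valuation of rank one of `K` (Archimedean value group). Let `L` be an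
intermediate field contained in `V` and mapped onto the residue field of `V` (a field of
representatives), such that the transcendence degree of `K/L` is the rational rank of the value group
plus one. Suppose that the value group is finitely generated or that `L` is infinite.

Then for every finite set `F` of non-zero elements of `K` there are a finitely generated `k`-algebra
`A` in `V` with fraction field `K`, whose local ring at the center of `V` is regular, and elements
`s_1, …, s_n` of `A` which form a regular system of parameters of this local ring, such that the
elements of `F` which lie in `V` lie in `A` and every element of `F` is a monomial in the `s_i` (with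
integral exponents) times a unit of the local ring. -/
theorem result (k K : Type u) [Field k] [Field K] [Algebra k K] [Algebra.EssFiniteType k K]
    (p : ℕ) [Fact p.Prime] [CharP k p] (V : ValuationSubring K)
    (hV : MulArchimedean V.ValueGroup)
    (L : IntermediateField k K) (hL : ∀ x ∈ L, x ∈ V)
    (hres : ∀ x ∈ V, ∃ c ∈ L, V.valuation (x - c) < 1)
    (hrank : Algebra.trdeg L K = Module.rank ℤ (Additive (V.ValueGroup)ˣ) + 1)
    (hLV : Group.FG (V.ValueGroup)ˣ ∨ Infinite L) (F : Finset K) (hF : ∀ x ∈ F, x ≠ 0) :
    ∃ (A : Subalgebra k K) (h : ∀ a ∈ A, a ∈ V) (n : ℕ) (s : Fin n → A),
      A.FG ∧ IsFractionRing A K ∧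
      IsRegularLocalRing (Localization.AtPrime (center V A h)) ∧
      ringKrullDim (Localization.AtPrime (center V A h)) = n ∧
      Ideal.span (Set.range fun i => algebraMap A (Localization.AtPrime (center V A h)) (s i)) =
        IsLocalRing.maximalIdeal (Localization.AtPrime (center V A h)) ∧
      (∀ x ∈ F, x ∈ V → x ∈ A) ∧
      ∀ x ∈ F, ∃ (a : Fin n → ℤ) (N D : A), N ∉ center V A h ∧ D ∉ center V A h ∧
        x * (D : K) = (∏ i, ((s i : A) : K) ^ a i) * (N : K) :=
  LX.union_strong p V hV L hL hres hrank hLV F hF

end Pool.Agent.Results.MP_53121e_ag.RankOneCorankOne
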