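import Pool.Agent.helper90.LT.KSet

/-!
Local uniformization, in every dimension and for every Krull valuation, for function fields over an
algebraically closed field of characteristic `p` that are generated by elements `z`, by tame covers
of the line along additive polynomials in `z`, and by tame Kummer elements.

Written by helper90 (design, proof) and helper34 (local structure of curves).
-/

namespace Pool.Agent.Results.MP_53121e_ag.TameAdditive

universe u

variable {k K : Type u} [Field k] [Field K] [Algebra k K]

/-- The center of the valuation ring `V` on `Spec A`, for a `k`-subalgebra `A` of `K` contained in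
`V`: the prime ideal of those elements of `A` that lie in the maximal ideal of `V`. -/
def center (V : ValuationSubring K) (A : Subalgebra k K) (h : ∀ a ∈ A, a ∈ V) : Ideal A :=
  (IsLocalRing.maximalIdeal V).comap
    ((A.val : A →+* K).codRestrict V.toSubring fun a => h a a.2)

instance (V : ValuationSubring K) (A : Subalgebra k K) (h : ∀ a ∈ A, a ∈ V) :
    (center V A h).IsPrime := Ideal.IsPrime.comap _

/-- `K/k` admits local uniformization: for every valuation ring `V` of `K` containing `k` (the
valuation rings of the Krull valuations of `K`, of arbitrary rank, that are trivial on `k`), there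
is an affine model of `K/k` on which `V` has a center and this center is a regular point: a
finitely generated `k`-subalgebra `A` of `V` with fraction field `K`, whose local ring at the
center of `V` is a regular local ring. -/
def AdmitsLU (k K : Type u) [Field k] [Field K] [Algebra k K] : Prop :=
  ∀ V : ValuationSubring K, (∀ c : k, algebraMap k K c ∈ V) →
    ∃ (A : Subalgebra k K) (h : ∀ a ∈ A, a ∈ V), A.FG ∧ IsFractionRing A K ∧
      IsRegularLocalRing (Localization.AtPrime (center V A h))

/-- `g : C → ℙ¹` is a separable, tamely ramified map, for the function field `F` in one variable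
of a curve `C` over `k`: `F` is separable over `k(g)` and, for every valuation ring `O` of `F`
containing `k` and every constant `c`, the value of `g - c` at `O` is divisible by `p` only if it
is zero (so `p` divides no ramification index over a point `c` of the line, nor the order of a pole
of `g`). -/
structure IsTame (k : Type u) {F : Type u} [Field k] [Field F] [Algebra k F] (p : ℕ) (g : F) :
    Prop where
  sep : Algebra.IsSeparable (IntermediateField.adjoin k {g}) F
  ram : ∀ O : ValuationSubring F, (∀ c : k, algebraMap k F c ∈ O) → ∀ (c : k) (h : F),
    O.valuation (g - algebraMap k F c) = O.valuation h ^ p →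
      O.valuation (g - algebraMap k F c) = 1

/-- Let `k` be an algebraically closed field of characteristic `p > 0` and `K/k` a field extension
of transcendence degree `n`. Suppose that `K` is generated over `k` by `n` elements
`z 1, …, z n`, by function fields in one variable `F 1, …, F N` and by a finite set `Z`, such that

* every `F i` contains a tame function `g i` which is, in `K`, an additive polynomial in
  `z 1, …, z n` up to a constant: `g i = c + ∑ a j s * z j ^ (p ^ s)`;
* every `x ∈ Z` is a Kummer element: `x ^ m ∈ F 1 ⋯ F N` is a product of elements of
  `F 1, …, F N`, for some `m` prime to `p`.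

Then `K/k` admits local uniformization. -/
theorem result (k K : Type u) [Field k] [IsAlgClosed k] [Field K] [Algebra k K]
    (p : ℕ) [Fact p.Prime] [CharP k p] (n N : ℕ) (z : Fin n → K)
    (F : Fin N → IntermediateField k K) (hF : ∀ i, (F i).FG)
    (hF1 : ∀ i, Algebra.trdeg k (F i) = 1)
    (g : ∀ i, F i) (hg : ∀ i, IsTame k p (g i))
    (hadd : ∀ i, (g i : K) ∈ Submodule.span k (insert 1 {y | ∃ j, ∃ s : ℕ, y = z j ^ p ^ s}))
    (Z : Finset K)
    (hZ : ∀ x ∈ Z, ∃ (m : ℕ) (h : ∀ i, F i), (m : k) ≠ 0 ∧ x ^ m = ∏ i, (h i : K))
    (hK : IntermediateField.adjoin k (Set.range z) ⊔ (⨆ i, F i) ⊔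
      IntermediateField.adjoin k (Z : Set K) = ⊤)
    (hn : Algebra.trdeg k K = n) : AdmitsLU k K := fun V hV =>
  LT.add_lu_set p z F g hF hF1 (fun i => ⟨(hg i).sep, (hg i).ram⟩) hadd Z hZ hK hn V hV

end Pool.Agent.Results.MP_53121e_ag.TameAdditive
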